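import Pool.Agent.W70.HR.Asm0
import Pool.Agent.W335.HR.SM
import Pool.Agent.W333.HR.Par
import Pool.Agent.W168.HR.CS
import Pool.Agent.W131.HR.Avg

/-! Project HR: the final theorem. -/

set_option autoImplicit false

namespace Pool.Agent.W70.HR

open Pool.Agent.H361R2.PP

theorem sm : S_SM := Pool.W335.HR.sm ml

theorem par : S_PAR :=
  Pool.Agent.W333.HR.par Pool.Agent.H708R2.types (Pool.Agent.H488R2.ggtypes Pool.Agent.H325R2.wtx)
    Pool.Agent.H633R2.ggSharp mer mv Pool.Agent.H325R2.pnt Pool.Agent.H325R2.wtx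

theorem mt_final : S_MT := mt sm par Pool.Agent.W168.HR.cs

theorem den_final : S_DEN := den sm par Pool.Agent.W168.HR.cs

theorem avg_final : S_AVG := Pool.Agent.W131.HR.avg den_final Pool.Agent.H325R2.wtx

theorem fin_final : S_FIN := fin_of avg_final

end Pool.Agent.W70.HR
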