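import Pool.Agent.W70.HR.Wt
import Pool.Agent.H212R2.AC4b
import Pool.Agent.H909R2.EN3
import Pool.Agent.H602R2.MomW
import Pool.Agent.H415R2.ACLocal
import Pool.Agent.H488R2.EN.D
import Pool.Agent.H911R2.EN.SumW
import Pool.Agent.H20R2.EN.FLem
import Pool.Agent.H708R2.ACTypes
import Pool.Agent.H488R2.PPM.Mer
import Pool.Agent.H96R2.EQP.Main
import Pool.Agent.H20R2.PP.EQI
import Pool.Agent.H633R2.PP.GGS
import Pool.Agent.H325R2.PPWtx
import Pool.Agent.H325R2.PPPnt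
import Pool.Agent.H363R2.PPCnt
import Pool.Agent.H872R2.Collapse2
import Pool.Agent.H433R2.PPMni
import Pool.Agent.H379R2.PP.Sm1
import Pool.Agent.H804R2.PPSm2
import Pool.Agent.W578.HR.MLA
import Pool.Agent.W327.HR.Mlb
import Pool.Agent.W762.HRPt
import Pool.Agent.W12.HR.Mv
import Pool.Agent.W12.HR.Den
import Pool.Agent.W11.HR.Samp
import Pool.Agent.W902.HR.Ex
import Pool.Agent.W918.HR.Ctb
import Pool.Agent.W67.HR.MT
import Pool.Agent.W978.HR.RM
import Pool.Agent.W880.HR.Fin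

/-! Project HR: assembly of the parts. -/

set_option autoImplicit false

namespace Pool.Agent.W70.HR

open Pool.Agent.H361R2.PP

theorem momW : Pool.Agent.H410R2.EN.MomW :=
  Pool.Agent.H602R2.momW_of (Pool.Agent.H488R2.EN2a.expandW_of Pool.Agent.H20R2.fLem)
    Pool.Agent.H911R2.EN.sumW Pool.Agent.H415R2.ACLocal.localSum

theorem gbd : Gbd := Pool.Agent.H488R2.gbd Pool.Agent.H325R2.wtx

theorem mer : Mer := Pool.Agent.H488R2.mer Pool.Agent.H325R2.wtx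

theorem mla : S_MLA :=
  Pool.Agent.W578.HR.mla momW Pool.Agent.H379R2.PP.sm1 Pool.Agent.H379R2.PP.sm3

theorem ml : S_ML :=
  _root_.W327.HR.ml_of mla Pool.Agent.H804R2.PPSm2.sm2 Pool.Agent.H20R2.eqInt
    Pool.Agent.H96R2.EQP.eqPrime gbd Pool.Agent.H325R2.wtx

theorem pt : S_PT := Pool.Agent.W762.HRPt.pt gbd Pool.Agent.H325R2.wtx

theorem mv : S_MV := Pool.Agent.W12.HR.mv mer Pool.Agent.H325R2.wtx

theorem rm : S_RM := Pool.Agent.W978.HR.rm Pool.Agent.H363R2.PPCnt.cnt mer Pool.Agent.H325R2.wtx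

theorem ex_few : S_EX :=
  Pool.Agent.W902.HREx.ex_few rm mv Pool.Agent.H363R2.PPCnt.cnt Pool.Agent.H325R2.wtx

theorem samp : S_SAMP := Pool.Agent.W11.HR.samp

theorem ctb : S_CTB := Pool.Agent.W918.HR.Ctb.ctb

theorem wt (hSM : S_SM) (hPAR : S_PAR) : S_WT :=
  wt_of ml hSM pt hPAR Pool.Agent.H872R2.PPCol.col Pool.Agent.H872R2.PPCol.cob
    Pool.Agent.H433R2.PPMni.mni Pool.Agent.H325R2.wtx

theorem mt (hSM : S_SM) (hPAR : S_PAR) (hCS : S_CS) : S_MT :=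
  Pool.Agent.W67.HR.mt (wt hSM hPAR) hCS

theorem den (hSM : S_SM) (hPAR : S_PAR) (hCS : S_CS) : S_DEN :=
  Pool.Agent.W12.HR.den (mt hSM hPAR hCS) ex_few samp Pool.Agent.H325R2.wtx

theorem fin_of (hAVG : S_AVG) : S_FIN := Pool.Agent.W880.HR.fin hAVG ctb

end Pool.Agent.W70.HR
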