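import Pool.Agent.H361R2.PP.Iface3
import Pool.Agent.H387R2.UDefs

/-!
# Project HR (helper70): the right order of magnitude in the Hardy-Littlewood conjecture

Statements of the parts.  Notation of `Pool.Agent.H361R2.PP`: `L = log X`, `W = Wm X` (product of the
primes up to `log log X / 4`), `BB X b N` the shifts `1 ≤ a ≤ N` with `b + a` prime to `W`,
`SI X b` the integers `n` of `[X, 2X)` in the class `b` modulo `W`, `SP X b a` those with `n + a`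
prime, `P1` / `P2` the primes of the rough part / of the Selberg part, `VV` the density of the
rough numbers, `rg` the rough indicator, `FS` a Selberg type function, `GG` its mass.
-/

set_option autoImplicit false

open Finset

namespace Pool.Agent.W70.HR

open Pool.Agent.H361R2.PP
open Pool.Agent.H410R2.AC (wt GG cfg term WW pos Inj coef)

/-- the admissible shifts of the class `b` up to `Λ log X` -/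
noncomputable def Bw (Λ : ℝ) (X b : ℕ) : Finset ℕ := BB X b ⌊Λ * Real.log X⌋₊

/-- indicator: all the numbers `n + a`, `a ∈ U`, are rough -/
noncomputable def rU (δ : ℝ) (X : ℕ) (U : Finset ℕ) (n : ℕ) : ℝ :=
  ∏ a ∈ U, rg (P1 (HH X) (JJ δ X)) a n

/-- expected number of integers of the class with `N` rough positions -/
noncomputable def Om (δ : ℝ) (X N : ℕ) : ℝ := (X : ℝ) / Wm X * VV δ X ^ N

/-- the same with one further position where the value is prime -/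
noncomputable def OmP (δ : ℝ) (X N : ℕ) : ℝ := Pr X / Nat.totient (Wm X) * VV δ X ^ N

/-- one-particle functions `γ β_τ FS(S_τ) / GG(S_τ)` (equal to `γ β_τ` at a prime) -/
noncomputable def xh {t : ℕ} (γ : ℝ) (β : Fin t → ℝ) (S : Fin t → Finset (Finset ℕ)) (n : ℕ)
    (τ : Fin t) (a : ℕ) : ℝ := γ * (β τ / GG (S τ) * FS (S τ) a n)

/-- one-particle masses -/
noncomputable def qh {t : ℕ} (γ : ℝ) (β : Fin t → ℝ) (S : Fin t → Finset (Finset ℕ))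
    (τ : Fin t) (_a : ℕ) : ℝ := γ ^ 2 * (β τ ^ 2 / GG (S τ))

/-- a family of sets of Selberg primes with logarithmic sizes at most `u log X` -/
def Fam (δ : ℝ) (X : ℕ) (u : ℝ) (S : Finset (Finset ℕ)) : Prop :=
  ∀ R ∈ S, R ⊆ P2 (JJ δ X) X ∧ Real.log (∏ p ∈ R, (p : ℝ)) ≤ u * Real.log X

open Classical in
/-- MLA: translation of the engine statement `MomW` (no asymptotics), all positions rough -/
def S_MLA : Prop := ∀ N : ℕ, ∃ K : ℕ, 1 ≤ K ∧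
  ∀ (o : Option ℕ) (δ : ℝ) (X b J D0 D2 : ℕ) (P2' S : Finset ℕ) (Ω : ℝ) (Er : Finset ℕ → ℝ)
    (U : Finset ℕ) (F F' : ℕ → Finset (Finset ℕ)) (d E : ℝ),
    U.card ≤ N → J = JJ δ X → K ≤ b → K ≤ HH X → HH X < 2 ^ 2 ^ J → 1 ≤ J →
    (∀ p ∈ P2', p.Prime ∧ 2 ^ 2 ^ J ≤ p) →
    (∀ a ∈ U, (∀ R ∈ F a, R ⊆ P2') ∧ ∀ R ∈ F' a, R ⊆ P2') →
    (∀ f f' : ℕ → Finset ℕ, (∀ a ∈ U, f a ∈ F a ∧ f' a ∈ F' a) →
      (∏ a ∈ U, ∏ p ∈ f a, p) * (∏ a ∈ U, ∏ p ∈ f' a, p) ≤ D2) →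
    0 ≤ Ω → Eqd o (P1 (HH X) J ∪ P2') S Ω Er →
    ∑ D ∈ (P1 (HH X) J ∪ P2').powerset.filter (fun D : Finset ℕ => ∏ p ∈ D, p ≤ D0),
      (K : ℝ) ^ D.card * Er D ≤ E →
    (2 ^ 2 ^ J) ^ (K * b) * D2 ≤ D0 → d ≤ 1 →
    Pool.Agent.H410R2.EN.dl (ee o) rho (P1 (HH X) J ∪ P2') U ≤ d →
    ((∀ a ∈ U, F a = F' a) ∨ ∃ a ∈ U, Disjoint (F a) (F' a)) →
    |∑ n ∈ S, rU δ X U n * ((∏ a ∈ U, FS (F a) a n) * ∏ a ∈ U, FS (F' a) a n) -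
      (if ∀ a ∈ U, F a = F' a then Ω * VV δ X ^ U.card * ∏ a ∈ U, GG (F a) else 0)| ≤
      Pool.Agent.H410R2.EN.EE K b J P2' Ω (VV δ X ^ U.card) d E

open Classical in
/-- ML: correlations of products of Selberg type functions, all positions rough -/
def S_ML : Prop := ∀ (N m : ℕ) (Λ θ s : ℝ), 0 < Λ → 0 < θ → θ ≤ 1 / 32 → 0 < s →
  ∃ δ₀ : ℝ, 0 < δ₀ ∧ ∀ δ : ℝ, 0 < δ → δ ≤ δ₀ → ∃ X₀ : ℕ, ∀ X : ℕ, X₀ ≤ X → ∀ b : ℕ, b < Wm X →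
  ∀ U ⊆ Bw Λ X b, U.card ≤ N → ∀ (F F' : ℕ → Finset (Finset ℕ)) (u u' : ℕ → ℝ),
  (∀ a ∈ U, 0 ≤ u a ∧ Fam δ X (u a) (F a)) → (∀ a ∈ U, 0 ≤ u' a ∧ Fam δ X (u' a) (F' a)) →
  ∑ a ∈ U, (u a + u' a) ≤ 1 / 2 - 2 * θ →
  ((∀ a ∈ U, F a = F' a) ∨ ∃ a ∈ U, Disjoint (F a) (F' a)) →
  |∑ n ∈ SI X b, rU δ X U n * ((∏ a ∈ U, FS (F a) a n) * ∏ a ∈ U, FS (F' a) a n) -
    (if ∀ a ∈ U, F a = F' a then Om δ X U.card * ∏ a ∈ U, GG (F a) else 0)| ≤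
      s * δ ^ m * Om δ X U.card ∧
  ∀ a₀ ∈ Bw Λ X b \ U,
  |∑ n ∈ SP X b a₀, rU δ X U n * ((∏ a ∈ U, FS (F a) a n) * ∏ a ∈ U, FS (F' a) a n) -
    (if ∀ a ∈ U, F a = F' a then OmP δ X U.card * ∏ a ∈ U, GG (F a) else 0)| ≤
      s * δ ^ m * OmP δ X U.card

/-- SM: second moments of the weights `WW`, all the positions of `U` rough -/
def S_SM : Prop := ∀ (N m t : ℕ) (u β : Fin t → ℝ) (Λ θ s : ℝ), (∀ τ, 0 < u τ ∧ 0 < β τ) →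
  ∑ τ, β τ = 1 → ∑ τ, u τ ≤ θ / 2 → 0 < Λ → 0 < θ → θ ≤ 1 / 32 → 0 < s →
  ∃ δ₀ : ℝ, 0 < δ₀ ∧ ∀ δ : ℝ, 0 < δ → δ ≤ δ₀ → ∃ X₀ : ℕ, ∀ X : ℕ, X₀ ≤ X → ∀ b : ℕ, b < Wm X →
  ∀ S : Fin t → Finset (Finset ℕ), (∀ τ, Fam δ X (u τ) (S τ)) → (∀ τ, ∅ ∉ S τ) →
  (∀ τ τ', τ ≠ τ' → Disjoint (S τ) (S τ')) → (∀ τ, 1 ≤ GG (S τ)) →
  ∀ γ : ℝ, 0 ≤ γ → 1 + γ ≤ (1 / δ) ^ m → ∀ U ⊆ Bw Λ X b, U.card ≤ N → ∀ B ⊆ U,
  ∀ c : (Fin t → Option ℕ) → ℝ, (∀ σ, |c σ| ≤ (1 + γ) ^ 2) →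
    |∑ n ∈ SI X b, rU δ X U n * WW B c (xh γ β S n) ^ 2 -
      Om δ X U.card * ∑ σ ∈ cfg t B, c σ ^ 2 * term (qh γ β S) σ| ≤ s * Om δ X U.card ∧
    ∀ a₀ ∈ Bw Λ X b \ U,
      |∑ n ∈ SP X b a₀, rU δ X U n * WW B c (xh γ β S n) ^ 2 -
        OmP δ X U.card * ∑ σ ∈ cfg t B, c σ ^ 2 * term (qh γ β S) σ| ≤ s * OmP δ X U.card ∧
      ∀ a₁ ∈ U \ B,
      |∑ n ∈ SP X b a₀, rU δ X U n * (FS (S1 δ θ X) a₁ n * WW B c (xh γ β S n)) ^ 2 -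
        OmP δ X U.card * (GG (S1 δ θ X) * ∑ σ ∈ cfg t B, c σ ^ 2 * term (qh γ β S) σ)| ≤
          s * OmP δ X U.card

/-- PT: the Selberg type functions are bounded -/
def S_PT : Prop := ∀ Λ δ : ℝ, 0 < Λ → 0 < δ → δ ≤ 1 / 8 → ∃ M₀ : ℝ, 0 < M₀ ∧ ∃ X₀ : ℕ,
  ∀ X : ℕ, X₀ ≤ X → ∀ b n a : ℕ, n ∈ SI X b → 1 ≤ a → (a : ℝ) ≤ Λ * Real.log X →
  ∀ S : Finset (Finset ℕ), (∀ R ∈ S, R ⊆ P2 (JJ δ X) X) → |FS S a n| ≤ M₀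

/-- MV: lower bound of the density of the rough numbers (Mertens) -/
def S_MV : Prop := ∃ c : ℝ, 0 < c ∧ ∀ δ : ℝ, 0 < δ → δ ≤ 1 → ∃ X₀ : ℕ, ∀ X : ℕ, X₀ ≤ X →
  c ≤ VV δ X * ((Nat.totient (Wm X) : ℝ) / Wm X) * (δ * Real.log X)

/-- the density of the primes relative to the rough numbers: `OmP N = vp * Om (N + 1)` -/
noncomputable def vp (δ : ℝ) (X : ℕ) : ℝ :=
  (Pr X / Nat.totient (Wm X)) / ((X : ℝ) / Wm X * VV δ X)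

/-- PAR: the choice of the parameters of the weights -/
def S_PAR : Prop := ∀ (T : ℕ) (μ s : ℝ), 1 ≤ T → 0 < μ → 0 < s → ∃ (θ : ℝ) (t K : ℕ)
  (u β : Fin t → ℝ), 0 < θ ∧ θ ≤ 1 / 32 ∧ 1 ≤ K ∧ (∀ τ, 0 < u τ ∧ 0 < β τ) ∧ ∑ τ, β τ = 1 ∧
  ∑ τ, u τ ≤ θ / 2 ∧ ∃ δ₀ : ℝ, 0 < δ₀ ∧ ∀ δ : ℝ, 0 < δ → δ ≤ δ₀ → ∃ X₀ : ℕ, ∀ X : ℕ, X₀ ≤ X →
  ∃ (S : Fin t → Finset (Finset ℕ)) (γ : ℝ), (∀ τ, Fam δ X (u τ) (S τ)) ∧ (∀ τ, ∅ ∉ S τ) ∧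
    (∀ τ τ', τ ≠ τ' → Disjoint (S τ) (S τ')) ∧ (∀ τ, 1 ≤ GG (S τ)) ∧
    0 ≤ γ ∧ 1 + γ ≤ (1 / δ) ^ 2 ∧ 0 < VV δ X ∧ 0 < vp δ X ∧ vp δ X * (1 + γ) ^ 2 = μ / K ∧
    (∀ τ, (T * K : ℝ) * (γ ^ 2 * (β τ ^ 2 / GG (S τ))) ≤ s) ∧
    ∑ τ, γ ^ 2 * (β τ ^ 2 / GG (S τ)) ≤ s ∧
    1 ≤ GG (S1 δ θ X) ∧ 1 / GG (S1 δ θ X) ≤ (4 + s) * vp δ X

/-- WT: good weights -/
def S_WT : Prop := ∀ (T : ℕ) (μ s : ℝ), 1 ≤ T → 0 < μ → 0 < s → ∃ K : ℕ, 1 ≤ K ∧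
  ∀ (Λ : ℝ) (N₁ : ℕ), 0 < Λ → ∃ δ : ℝ, 0 < δ ∧ δ ≤ 1 / 8 ∧ ∃ (M₀ : ℝ) (X₀ : ℕ), 0 < M₀ ∧
  ∀ X : ℕ, X₀ ≤ X → ∀ b : ℕ, b < Wm X →
  0 < VV δ X ∧
  (∀ U ⊆ Bw Λ X b, U.card ≤ N₁ → ∑ n ∈ SI X b, rU δ X U n ≤ 2 * Om δ X U.card) ∧
  ∀ B ⊆ Bw Λ X b, B.card = T * K → ∃ (w : ℕ → ℝ) (A : ℝ),
    (∀ n ∈ SI X b, 0 ≤ w n ∧ w n ≤ M₀ * rU δ X B n) ∧ Om δ X (T * K) ≤ A ∧
    ∑ n ∈ SI X b, w n ≤ (1 + s) * A ∧
    (∀ a ∈ B, (1 - s) * (μ / K) * A ≤ ∑ n ∈ SP X b a, w n ∧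
      ∑ n ∈ SP X b a, w n ≤ (1 + s) * (μ / K) * A) ∧
    ∀ a ∈ B, ∀ a' ∈ B, a ≠ a' →
      ∑ n ∈ (SP X b a).filter (fun n => (n + a').Prime), w n ≤ (4 + s) * (μ / K) ^ 2 * A

open Classical in
/-- CS: from first and second moments to a quarter of the classes -/
def S_CS : Prop := ∀ (T K : ℕ) (Ω : Finset ℕ) (w : ℕ → ℝ) (P : Fin T → Fin K → ℕ → Prop)
  (A μ s : ℝ), 1 ≤ T → 1 ≤ K → (∀ n ∈ Ω, 0 ≤ w n) → 0 < A → 16 * (T : ℝ) ≤ μ → 0 ≤ s →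
  100 * T * s ≤ 1 → ∑ n ∈ Ω, w n ≤ (1 + s) * A →
  (∀ g i, (1 - s) * (μ / K) * A ≤ ∑ n ∈ Ω.filter (fun n => P g i n), w n ∧
    ∑ n ∈ Ω.filter (fun n => P g i n), w n ≤ (1 + s) * (μ / K) * A) →
  (∀ g i j, i ≠ j →
    ∑ n ∈ Ω.filter (fun n => P g i n ∧ P g j n), w n ≤ (4 + s) * (μ / K) ^ 2 * A) →
  A / (8 * T) ≤ ∑ n ∈ Ω.filter (fun n =>
    T ≤ 4 * ((univ : Finset (Fin T)).filter (fun g => ∃ i, P g i n)).card), w n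

open Classical in
/-- the number of `n` for which all positions `H g i` are rough and a quarter of the classes
contains a prime -/
noncomputable def hits (δ : ℝ) (X b T K : ℕ) (H : Fin T → Fin K → ℕ) : ℕ :=
  ((SI X b).filter (fun n => (∀ g i, rg (P1 (HH X) (JJ δ X)) (H g i) n = 1) ∧
    T ≤ 4 * ((univ : Finset (Fin T)).filter (fun g => ∃ i, (n + H g i).Prime)).card)).card

/-- the coloured Maynard-Tao theorem with the right order of magnitude, for `T` classes of `K`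
elements -/
def MTat (T K : ℕ) : Prop := ∀ (Λ : ℝ) (N₁ : ℕ), 0 < Λ → ∃ δ c : ℝ, 0 < δ ∧ δ ≤ 1 / 8 ∧ 0 < c ∧
  ∃ X₀ : ℕ, ∀ X : ℕ, X₀ ≤ X → ∀ b : ℕ, b < Wm X → 0 < VV δ X ∧
  (∀ U ⊆ Bw Λ X b, U.card ≤ N₁ → ∑ n ∈ SI X b, rU δ X U n ≤ 2 * Om δ X U.card) ∧
  ∀ H : Fin T → Fin K → ℕ, (∀ g i, H g i ∈ Bw Λ X b) →
    Function.Injective (fun x : Fin T × Fin K => H x.1 x.2) →
    c * Om δ X (T * K) ≤ (hits δ X b T K H : ℝ)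

/-- MT -/
def S_MT : Prop := ∀ T : ℕ, 1 ≤ T → ∃ K : ℕ, 1 ≤ K ∧ MTat T K

/-- RM: moments of the number of rough positions -/
def S_RM : Prop := ∀ (m : ℕ) (Λ δ : ℝ), 0 < Λ → 0 < δ → δ ≤ 1 / 8 → ∃ (C : ℝ) (X₀ : ℕ), 0 < C ∧
  ∀ X : ℕ, X₀ ≤ X → ∀ b : ℕ, b < Wm X →
  (∀ U ⊆ Bw Λ X b, U.card ≤ m → ∑ n ∈ SI X b, rU δ X U n ≤ 2 * Om δ X U.card) →
  ∑ n ∈ SI X b, (∑ a ∈ Bw Λ X b, rg (P1 (HH X) (JJ δ X)) a n) ^ m ≤ C * ((X : ℝ) / Wm X)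

open Classical in
/-- number of `n` in the class `b` for which all `n + y i` are prime -/
noncomputable def cb (X b : ℕ) {l : ℕ} (y : Fin l → ℕ) : ℕ :=
  ((SI X b).filter (fun n => ∀ i, (n + y i).Prime)).card

/-- the expected order of magnitude of `cb` -/
noncomputable def ex (X l : ℕ) : ℝ :=
  (X : ℝ) / Wm X * ((Wm X : ℝ) / (Nat.totient (Wm X) * Real.log X)) ^ l

/-- every `(k+1)`-tuple of distinct elements of `F` has the right order of magnitude in the class -/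
def Gd (k : ℕ) (δ : ℝ) (X b : ℕ) (F : Finset ℕ) : Prop :=
  ∀ y : Fin (k + 1) → ℕ, Function.Injective y → (∀ i, y i ∈ F) → δ * ex X (k + 1) ≤ (cb X b y : ℝ)

open Classical in
/-- the injective `H` with values in `V` without a good set that meets a quarter of the classes -/
noncomputable def Exc (G : Finset ℕ → Prop) (T K : ℕ) (V : Finset ℕ) :
    Finset (Fin T → Fin K → ℕ) :=
  (Fintype.piFinset (fun _ : Fin T => Fintype.piFinset (fun _ : Fin K => V))).filter (fun H =>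
    Function.Injective (fun x : Fin T × Fin K => H x.1 x.2) ∧
    ¬ ∃ (S : Finset (Fin T)) (c : Fin T → Fin K), T ≤ 4 * S.card ∧ G (S.image (fun g => H g (c g))))

/-- EX: there are few exceptional `H` -/
def S_EX : Prop := ∀ k T K : ℕ, 1 ≤ T → 1 ≤ K → MTat T K → ∀ Λ η ε : ℝ, 0 < Λ → 0 < η → 0 < ε →
  ∃ δ : ℝ, 0 < δ ∧ ∃ X₀ : ℕ, ∀ X : ℕ, X₀ ≤ X → ∀ b : ℕ, b < Wm X → ∀ V ⊆ Bw Λ X b,
  η * (Real.log X * (Nat.totient (Wm X) / Wm X)) ≤ (V.card : ℝ) →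
  ((Exc (Gd k δ X b) T K V).card : ℝ) ≤ ε * (V.card : ℝ) ^ (T * K)

open Classical in
/-- SAMP: combinatorial theorem, for families with few exceptional `H` -/
def S_SAMP : Prop := ∀ (k : ℕ) (ε : ℝ), 0 < ε → ∀ Kf : ℕ → ℕ, (∀ T, 1 ≤ Kf T) →
  ∃ (M : ℕ) (ε₁ : ℝ) (n₁ : ℕ), 0 < ε₁ ∧ ∀ (V : Finset ℕ) (G : Finset ℕ → Prop), n₁ ≤ V.card →
  (∀ F F' : Finset ℕ, F' ⊆ F → G F → G F') →
  (∀ T : ℕ, 1 ≤ T → T ≤ M →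
    ((Exc G T (Kf T) V).card : ℝ) ≤ ε₁ * (V.card : ℝ) ^ (T * Kf T)) →
  ((1 / 4 : ℝ) ^ k - ε) * (V.card : ℝ) ^ (k + 1) ≤
    (((Fintype.piFinset (fun _ : Fin (k + 1) => V)).filter (fun y => Function.Injective y ∧
      G (univ.image y))).card : ℝ)

open Classical in
/-- the good tuples of `V` in the class `b` -/
noncomputable def goodY (k : ℕ) (δ : ℝ) (X b : ℕ) (V : Finset ℕ) : Finset (Fin (k + 1) → ℕ) :=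
  (Fintype.piFinset (fun _ : Fin (k + 1) => V)).filter (fun y => Function.Injective y ∧
    δ * ex X (k + 1) ≤ (cb X b y : ℝ))

/-- DEN: the proportion of the good tuples in one class -/
def S_DEN : Prop := ∀ (k : ℕ) (Λ η ε : ℝ), 0 < Λ → 0 < η → 0 < ε →
  ∃ δ : ℝ, 0 < δ ∧ ∃ X₀ : ℕ, ∀ X : ℕ, X₀ ≤ X → ∀ b : ℕ, b < Wm X → ∀ V ⊆ Bw Λ X b,
  η * (Real.log X * (Nat.totient (Wm X) / Wm X)) ≤ (V.card : ℝ) →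
  ((1 / 4 : ℝ) ^ k - ε) * (V.card : ℝ) ^ (k + 1) ≤ ((goodY k δ X b V).card : ℝ)

open Classical in
/-- the number of classes `b` modulo `W` with all `b + t`, `t ∈ T`, prime to `W` -/
noncomputable def gW (X : ℕ) (T : Finset ℕ) : ℕ :=
  ((range (Wm X)).filter (fun b => ∀ t ∈ T, (b + t).Coprime (Wm X))).card

/-- CTB: the singular series and the number of classes -/
def S_CTB : Prop := ∀ (l : ℕ) (Λ s : ℝ), 0 < Λ → 0 < s → ∃ X₀ : ℕ, ∀ X : ℕ, X₀ ≤ X →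
  ∀ T : Finset ℕ, T.card = l → (∀ a ∈ T, 1 ≤ a ∧ (a : ℝ) ≤ Λ * Real.log X) →
  (1 - s) * ((gW X T : ℝ) / Wm X * ((Wm X : ℝ) / Nat.totient (Wm X)) ^ l) ≤
    Pool.Agent.H387R2.Uni.CT T ∧
  Pool.Agent.H387R2.Uni.CT T ≤
    (1 + s) * ((gW X T : ℝ) / Wm X * ((Wm X : ℝ) / Nat.totient (Wm X)) ^ l)

open Classical in
/-- the number of `n ∈ [X, 2X)` for which all `n + t`, `t ∈ T`, are prime -/
noncomputable def cT (X : ℕ) (T : Finset ℕ) : ℕ :=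
  ((Ico X (2 * X)).filter (fun n => ∀ t ∈ T, (n + t).Prime)).card

open Classical in
/-- AVG: average over the classes, singular series replaced by the number of classes -/
def S_AVG : Prop := ∀ (k : ℕ) (Λ η ε : ℝ), 0 < Λ → 0 < η → 0 < ε →
  ∃ δ : ℝ, 0 < δ ∧ ∃ X₀ : ℕ, ∀ X : ℕ, X₀ ≤ X → ∀ A : Finset ℕ,
  (∀ a ∈ A, 1 ≤ a ∧ (a : ℝ) ≤ Λ * Real.log X) → η * Real.log X ≤ A.card →
  ((1 / 4 : ℝ) ^ k - ε) * ∑ T ∈ A.powersetCard (k + 1), (gW X T : ℝ) ≤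
    ∑ T ∈ (A.powersetCard (k + 1)).filter (fun T =>
      δ * ((gW X T : ℝ) * ex X (k + 1)) ≤ (cT X T : ℝ)), (gW X T : ℝ)

open Classical in
/-- FIN: the final theorem -/
def S_FIN : Prop := ∀ (k : ℕ) (Λ η ε : ℝ), 0 < η → 0 < ε →
  ∃ δ : ℝ, 0 < δ ∧ ∃ X₀ : ℕ, ∀ X : ℕ, X₀ ≤ X → ∀ A : Finset ℕ,
  (∀ a ∈ A, 1 ≤ a ∧ (a : ℝ) ≤ Λ * Real.log X) → η * Real.log X ≤ A.card →
  ((1 / 4 : ℝ) ^ k - ε) * ∑ T ∈ A.powersetCard (k + 1), Pool.Agent.H387R2.Uni.CT T ≤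
    ∑ T ∈ (A.powersetCard (k + 1)).filter (fun T =>
      δ * (Pool.Agent.H387R2.Uni.CT T * (X / Real.log X ^ (k + 1))) ≤ (cT X T : ℝ)),
      Pool.Agent.H387R2.Uni.CT T

end Pool.Agent.W70.HR
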