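import Pool.Agent.W70.HR.WtA

/-! Project HR, part WT: good weights. -/

set_option autoImplicit false

open Finset

namespace Pool.Agent.W70.HR

open Pool.Agent.H361R2.PP
open Pool.Agent.H410R2.AC (wt GG cfg term WW pos Inj coef)

theorem card_cfg_le (t : ℕ) (B : Finset ℕ) : ((cfg t B).card : ℝ) ≤ ((B.card : ℝ) + 1) ^ t := by
  classical
  have h1 : (cfg t B).card ≤ (B.card + 1) ^ t := by
    unfold cfg
    refine (card_filter_le _ _).trans ?_
    rw [Fintype.card_piFinset]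
    simp
  exact_mod_cast h1

theorem cfg_mem {t : ℕ} {B : Finset ℕ} {σ : Fin t → Option ℕ} (hσ : σ ∈ cfg t B) {τ : Fin t}
    {a : ℕ} (h : σ τ = some a) : a ∈ B := by
  classical
  unfold cfg at hσ
  rw [mem_filter, Fintype.mem_piFinset] at hσ
  have h1 := hσ.1 τ
  rw [h, Finset.some_mem_insertNone] at h1
  exact h1

theorem WW_bound {t : ℕ} {B : Finset ℕ} {x : Fin t → ℕ → ℝ} {Q : ℝ} (hQ : 1 ≤ Q)
    (hx : ∀ τ, ∀ a ∈ B, |x τ a| ≤ Q) :
    |WW B (fun _ => 1) x| ≤ ((B.card : ℝ) + 1) ^ t * Q ^ t := by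
  unfold WW
  calc |∑ σ ∈ cfg t B, (fun _ => (1 : ℝ)) σ * term x σ| ≤
      ∑ σ ∈ cfg t B, |(fun _ => (1 : ℝ)) σ * term x σ| := abs_sum_le_sum_abs _ _
    _ ≤ ∑ σ ∈ cfg t B, Q ^ t := by
        refine sum_le_sum fun σ hσ => ?_
        simp only [one_mul]
        unfold term
        rw [abs_prod]
        calc _ ≤ ∏ _τ : Fin t, Q := by
              refine prod_le_prod (fun _ _ => abs_nonneg _) fun τ _ => ?_
              cases hs : σ τ with
              | none => simpa using hQ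
              | some a => exact hx τ a (cfg_mem hσ hs)
          _ = Q ^ t := by simp
    _ = ((cfg t B).card : ℝ) * Q ^ t := by rw [sum_const, nsmul_eq_mul]
    _ ≤ _ := mul_le_mul_of_nonneg_right (card_cfg_le t B) (by positivity)

/-- the rough sums, from `S_ML` with trivial families -/
theorem rough_of (hML : S_ML) (Λ : ℝ) (N : ℕ) (hΛ : 0 < Λ) : ∃ δ₀ : ℝ, 0 < δ₀ ∧ ∀ δ : ℝ, 0 < δ →
    δ ≤ δ₀ → ∃ X₀ : ℕ, ∀ X : ℕ, X₀ ≤ X → 0 < VV δ X → ∀ b : ℕ, b < Wm X →
    ∀ U ⊆ Bw Λ X b, U.card ≤ N → ∑ n ∈ SI X b, rU δ X U n ≤ 2 * Om δ X U.card := by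
  obtain ⟨δ₀, h0, h⟩ := hML N 0 Λ (1 / 32) 1 hΛ (by norm_num) le_rfl one_pos
  refine ⟨δ₀, h0, fun δ hδ hδ0 => ?_⟩
  obtain ⟨X₀, h1⟩ := h δ hδ hδ0
  refine ⟨X₀, fun X hX hV b hb U hU hN => ?_⟩
  have hF : ∀ a ∈ U, (0 : ℝ) ≤ (fun _ : ℕ => (0 : ℝ)) a ∧
      Fam δ X ((fun _ : ℕ => (0 : ℝ)) a) ((fun _ : ℕ => ({∅} : Finset (Finset ℕ))) a) := by
    intro a _
    refine ⟨le_rfl, ?_⟩
    intro R hR
    simp only [mem_singleton] at hR
    subst hR
    simp
  have h2 := (h1 X hX b hb U hU hN (fun _ => {∅}) (fun _ => {∅}) (fun _ => 0) (fun _ => 0) hF hF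
    (by simp; norm_num) (Or.inl fun _ _ => rfl)).1
  have hFS : ∀ a n, FS ({∅} : Finset (Finset ℕ)) a n = 1 := by
    intro a n
    unfold FS
    simp [wt]
  have hGG : GG ({∅} : Finset (Finset ℕ)) = 1 := by
    unfold GG
    simp [wt]
  simp only [hFS, hGG, prod_const_one, mul_one, pow_zero, one_mul, implies_true, if_true] at h2
  have h3 := (abs_le.1 h2).2
  linarith

theorem wt_of (hML : S_ML) (hSM : S_SM) (hPT : S_PT) (hPAR : S_PAR) (hCol : Col) (hCob : Cob)
    (hMni : Mni) (hWtx : Wtx) : S_WT := by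
  intro T μ s hT hμ hs
  set σ : ℝ := min s 1 / 10 with hσ
  have hσ0 : 0 < σ := by rw [hσ]; positivity
  have hσs : 10 * σ ≤ s := by
    rw [hσ]
    have := min_le_left s 1
    linarith
  have hσ1 : 10 * σ ≤ 1 := by
    rw [hσ]
    have := min_le_right s 1
    linarith
  obtain ⟨θ, t, K, u, β, hθ0, hθ, hK, hub, hβ1, hu, δa, hδa, hpar⟩ := hPAR T μ σ hT hμ hσ0
  refine ⟨K, hK, fun Λ N₁ hΛ => ?_⟩
  obtain ⟨δb, hδb, hsm⟩ := hSM (T * K) 2 t u β Λ θ σ hub hβ1 hu hΛ hθ0 hθ hσ0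
  obtain ⟨δc, hδc, hrough⟩ := rough_of hML Λ N₁ hΛ
  obtain ⟨δ, hδ⟩ : ∃ δ : ℝ, δ = min (min δa δb) (min δc (1 / 8)) := ⟨_, rfl⟩
  have hδ0 : 0 < δ := by rw [hδ]; positivity
  have h1 : δ ≤ δa := by rw [hδ]; exact (min_le_left _ _).trans (min_le_left _ _)
  have h2 : δ ≤ δb := by rw [hδ]; exact (min_le_left _ _).trans (min_le_right _ _)
  have h3 : δ ≤ δc := by rw [hδ]; exact (min_le_right _ _).trans (min_le_left _ _)
  have h4 : δ ≤ 1 / 8 := by rw [hδ]; exact (min_le_right _ _).trans (min_le_right _ _)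
  obtain ⟨Xa, hpar⟩ := hpar δ hδ0 h1
  obtain ⟨Xb, hsm⟩ := hsm δ hδ0 h2
  obtain ⟨Xc, hrough⟩ := hrough δ hδ0 h3
  obtain ⟨M₁, hM₁, Xd, hpt⟩ := hPT Λ δ hΛ hδ0 h4
  obtain ⟨Xe, hwtx⟩ := hWtx.2 δ hδ0 (by linarith)
  set Q : ℝ := 1 + (1 / δ) ^ 2 * M₁ with hQ
  have hQ1 : 1 ≤ Q := by
    rw [hQ]
    have : 0 ≤ (1 / δ) ^ 2 * M₁ := by positivity
    linarith
  set M₀ : ℝ := ((((T * K : ℕ) : ℝ) + 1) ^ t * Q ^ t) ^ 2 with hM₀
  have hM₀0 : 0 < M₀ := by positivity
  refine ⟨δ, hδ0, h4, M₀, max (max (max Xa Xb) (max Xc Xd)) (max Xe 1), hM₀0, ?_⟩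
  intro X hX b hb
  have hXa : Xa ≤ X := ((le_max_left _ _).trans ((le_max_left _ _).trans (le_max_left _ _))).trans hX
  have hXb : Xb ≤ X := ((le_max_right _ _).trans ((le_max_left _ _).trans (le_max_left _ _))).trans hX
  have hXc : Xc ≤ X := ((le_max_left _ _).trans ((le_max_right _ _).trans (le_max_left _ _))).trans hX
  have hXd : Xd ≤ X := ((le_max_right _ _).trans ((le_max_right _ _).trans (le_max_left _ _))).trans hX
  have hXe : Xe ≤ X := ((le_max_left _ _).trans (le_max_right _ _)).trans hX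
  have hX1 : 1 ≤ X := ((le_max_right _ _).trans (le_max_right _ _)).trans hX
  obtain ⟨S, γ, hFam, hS0, hSd, hSG, hγ0, hγ1, hV, hvp, hγμ, hη, hq, hG1, hG2⟩ := hpar X hXa
  have hPJ : 2 ^ 2 ^ JJ δ X ≤ X := by
    have h5 := (hwtx X hXe).1
    have h6 : (X : ℝ) ^ δ ≤ (X : ℝ) ^ (1 : ℝ) := by
      apply Real.rpow_le_rpow_of_exponent_le _ (by linarith)
      exact_mod_cast hX1
    rw [Real.rpow_one] at h6
    have h7 := h5.trans h6
    exact_mod_cast h7
  have hSMb : SMb Λ δ θ σ γ X b (T * K) β S := by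
    intro U hU hN B hB c hc
    exact hsm X hXb b hb S hFam hS0 hSd hSG γ hγ0 hγ1 U hU hN B hB c hc
  have hst : Wst Λ δ θ σ σ γ X b (T * K) β S :=
    { sm := hSMb
      s0 := hσ0.le
      γ0 := hγ0
      β0 := fun τ => (hub τ).2.le
      β1 := hβ1
      gg := hSG
      hS := fun τ R hR => (hFam τ R hR).1
      η0 := hσ0.le
      hη := fun τ => by
        have := hη τ
        push_cast
        exact this
      hq := hq
      pJ := hPJ
      v0 := hV
      hX := hX1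
      g1 := hG1 }
  refine ⟨hV, fun U hU hN => hrough X hXc hV b hb U hU hN, fun B hBs hB => ?_⟩
  have hZ := (mni_of hMni hst hB).1
  have hOm := Om_pos hst (T * K)
  set A : ℝ := Om δ X (T * K) * ZB γ β S B with hA
  have hA0 : 0 < A := by rw [hA]; positivity
  have hμK : 0 < μ / K := by
    have : (0 : ℝ) < K := by exact_mod_cast hK
    positivity
  refine ⟨ww δ γ X β S B, A, fun n hn => ⟨ww_nonneg B n, ?_⟩, ?_, ?_, fun a ha => ?_,
    fun a ha a' ha' hne => ?_⟩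
  · have hW : |WW B (fun _ => 1) (xh γ β S n)| ≤ (((T * K : ℕ) : ℝ) + 1) ^ t * Q ^ t := by
      have := WW_bound (t := t) (B := B) (x := xh γ β S n) hQ1 (by
        intro τ a ha
        have ha' := hBs ha
        have haΛ : (a : ℝ) ≤ Λ * Real.log X := by
          have h5 : a ≤ ⌊Λ * Real.log X⌋₊ := (mem_BB.1 ha').2.1
          have h6 : 0 ≤ Λ * Real.log X := by
            have : 0 ≤ Real.log X := Real.log_nonneg (by exact_mod_cast hX1)
            positivity
          exact (Nat.le_floor_iff h6).1 h5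
        have h5 := hpt X hXd b n a hn (mem_Bw1 ha') haΛ (S τ) (fun R hR => (hFam τ R hR).1)
        unfold xh
        have hg := hSG τ
        have hβ := hub τ
        have hβ1' : β τ ≤ 1 := by
          rw [← hβ1]
          exact single_le_sum (f := β) (fun τ _ => (hub τ).2.le) (mem_univ τ)
        have hbg : 0 ≤ β τ / GG (S τ) := div_nonneg hβ.2.le (by linarith)
        rw [abs_mul, abs_mul, abs_of_nonneg hγ0, abs_of_nonneg hbg]
        have h6 : β τ / GG (S τ) ≤ 1 := by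
          rw [div_le_one (by linarith)]
          linarith
        have h7 : γ ≤ (1 / δ) ^ 2 := by linarith
        have h8 : β τ / GG (S τ) * |FS (S τ) a n| ≤ M₁ := by
          calc β τ / GG (S τ) * |FS (S τ) a n| ≤ 1 * M₁ := by
                apply mul_le_mul h6 h5 (abs_nonneg _) zero_le_one
            _ = M₁ := one_mul _
        calc γ * (β τ / GG (S τ) * |FS (S τ) a n|) ≤ (1 / δ) ^ 2 * M₁ := by
              apply mul_le_mul h7 h8 _ (by positivity)
              exact mul_nonneg hbg (abs_nonneg _)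
          _ ≤ Q := by rw [hQ]; linarith)
      rw [hB] at this
      exact this
    unfold ww
    rw [mul_comm]
    apply mul_le_mul_of_nonneg_right _ (rU_nonneg B n)
    rw [hM₀, ← sq_abs]
    exact pow_le_pow_left₀ (abs_nonneg _) hW 2
  · rw [hA]
    nlinarith
  · refine (W1 hMni hst hB hBs).trans ?_
    rw [← hA]
    apply mul_le_mul_of_nonneg_right _ hA0.le
    linarith
  · obtain ⟨h5, h6⟩ := W2 hCol hCob hMni hst hB hBs ha
    rw [hγμ, ← hA] at h5 h6
    have h7 : 0 < μ / K * A := by positivity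
    constructor
    · refine le_trans ?_ h5
      rw [mul_assoc]
      apply mul_le_mul_of_nonneg_right _ h7.le
      linarith
    · refine h6.trans ?_
      rw [mul_assoc (1 + s)]
      apply mul_le_mul_of_nonneg_right _ h7.le
      linarith
  · refine (W3 hCol hCob hMni hst hB hBs ha ha' hne).trans ?_
    rw [← hA]
    have h5 : vp δ X * (1 / GG (S1 δ θ X)) * (1 + γ) ^ 4 ≤ (4 + σ) * (μ / K) ^ 2 := by
      rw [← hγμ]
      calc vp δ X * (1 / GG (S1 δ θ X)) * (1 + γ) ^ 4 ≤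
          vp δ X * ((4 + σ) * vp δ X) * (1 + γ) ^ 4 := by
            apply mul_le_mul_of_nonneg_right _ (by positivity)
            exact mul_le_mul_of_nonneg_left hG2 hvp.le
        _ = _ := by ring
    calc (1 + σ) * (vp δ X * (1 / GG (S1 δ θ X)) * (1 + γ) ^ 4 * A) ≤
        (1 + σ) * ((4 + σ) * (μ / K) ^ 2 * A) := by
          apply mul_le_mul_of_nonneg_left _ (by linarith)
          exact mul_le_mul_of_nonneg_right h5 hA0.le
      _ = (1 + σ) * (4 + σ) * ((μ / K) ^ 2 * A) := by ring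
      _ ≤ (4 + s) * ((μ / K) ^ 2 * A) := by
          apply mul_le_mul_of_nonneg_right _ (by positivity)
          nlinarith
      _ = _ := by ring

end Pool.Agent.W70.HR
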